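import Pool.Agent.H51.MF.Base

/-! # POSF: a positive functional which is not proportional to a given one. -/

set_option linter.style.haveILetI false
set_option linter.unusedSectionVars false
set_option autoImplicit false

namespace Pool.Agent.H51.MF

open Module Pool.Agent.H51.T2

universe u v

/-- a nonzero relation with a functional which does not vanish on `D` has `b ≠ 0` -/
theorem POSF_rel {n : ℕ} {D : Set (Fin n → ℤ)} {η p : Fin n → ℤ} (hη : NZ D η)
    (h : ¬ Ind D η p) : ∃ q : ℚ, ∀ w ∈ D, ((p ⬝ᵥ w : ℤ) : ℚ) = q * ((η ⬝ᵥ w : ℤ) : ℚ) := by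
  unfold Ind at h
  push Not at h
  obtain ⟨a, b, hab, hne⟩ := h
  have hb : b ≠ 0 := by
    rintro rfl
    have ha : a ≠ 0 := fun ha => hne ha rfl
    obtain ⟨w, hw, hw0⟩ := hη
    have := hab w hw
    rw [zero_smul, add_zero, smul_dotProduct, smul_eq_mul] at this
    rcases mul_eq_zero.1 this with h1 | h1
    · exact ha h1
    · exact hw0 h1
  have hbq : (b : ℚ) ≠ 0 := by exact_mod_cast hb
  refine ⟨-(a : ℚ) / b, fun w hw => ?_⟩
  have := hab w hw
  rw [add_dotProduct, smul_dotProduct, smul_dotProduct, smul_eq_mul, smul_eq_mul] at this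
  have h2 : (a : ℚ) * ((η ⬝ᵥ w : ℤ) : ℚ) + b * ((p ⬝ᵥ w : ℤ) : ℚ) = 0 := by exact_mod_cast this
  field_simp
  linarith

theorem s_POSF (K : Type v) [Field K] (A : Type u) [Ring A] [Algebra K A] (hDIM : S_DIM K A) :
    S_POSF K A := by
  intro hA c f₀ η hr hη
  obtain ⟨δ, hδ⟩ := hDIM hA c
  have hpos : ∀ X : FM K A, Nontrivial X → 0 < δ ⬝ᵥ c.v X := by
    intro X hX
    rw [hδ]
    exact_mod_cast (finrank_pos : 0 < finrank K X)
  have hpi : ∀ i : Fin c.n, ∀ X : FM K A, Nontrivial X →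
      0 < (δ + Pi.single i 1) ⬝ᵥ c.v X := by
    intro i X hX
    rw [add_dotProduct, single_dotProduct, one_mul]
    have := hpos X hX
    have := v_nonneg c X i
    linarith
  by_contra hcon
  push Not at hcon
  obtain ⟨q, hq⟩ := POSF_rel hη (hcon δ hpos)
  have h1 := fun i => POSF_rel hη (hcon _ (hpi i))
  choose r hr' using h1
  have h2 : ∀ w ∈ WV c f₀, ∀ i, ((w i : ℤ) : ℚ) = (r i - q) * ((η ⬝ᵥ w : ℤ) : ℚ) := by
    intro w hw i
    have e1 := hr' i w hw
    have e2 := hq w hw
    rw [add_dotProduct, single_dotProduct, one_mul] at e1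
    push_cast at e1 e2 ⊢
    rw [sub_mul, ← e1, ← e2]
    ring
  have h3 : rk (WV c f₀) ≤ 1 := by
    unfold rk
    have h4 : Submodule.span ℚ ((fun (w : Fin c.n → ℤ) (i : Fin c.n) => (w i : ℚ)) '' (WV c f₀)) ≤
        Submodule.span ℚ {fun i => r i - q} := by
      rw [Submodule.span_le]
      rintro _ ⟨w, hw, rfl⟩
      rw [SetLike.mem_coe, Submodule.mem_span_singleton]
      refine ⟨((η ⬝ᵥ w : ℤ) : ℚ), ?_⟩
      funext i
      rw [Pi.smul_apply, smul_eq_mul, mul_comm]
      exact (h2 w hw i).symm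
    refine (Submodule.finrank_mono h4).trans ?_
    have h5 := finrank_span_le_card (R := ℚ) ({fun i => r i - q} : Set (Fin c.n → ℚ))
    rwa [Set.toFinset_singleton, Finset.card_singleton] at h5
  omega

end Pool.Agent.H51.MF
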