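import Pool.Agent.H51.MF.Base

/-! # PP1: Proposition P in rank one. -/

set_option linter.style.haveILetI false
set_option linter.unusedSectionVars false
set_option autoImplicit false

namespace Pool.Agent.H51.MF

open Module Pool.Agent.H51.T2

universe u v

/-- in positive rank there is a nonzero object -/
theorem PP1_exists {K : Type v} [Field K] {A : Type u} [Ring A] [Algebra K A] (c : Coo K A)
    (f₀ : TC K A) (h : rk (WV c f₀) = 1) : ∃ X : FM K A, InW f₀ X ∧ Nontrivial X := by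
  by_contra hcon
  push Not at hcon
  have h1 : rk (WV c f₀) = 0 := by
    unfold rk
    have h2 : Submodule.span ℚ ((fun (w : Fin c.n → ℤ) (i : Fin c.n) => (w i : ℚ)) '' (WV c f₀)) =
        ⊥ := by
      rw [Submodule.span_eq_bot]
      rintro _ ⟨w, ⟨X, hX, rfl⟩, rfl⟩
      have h3 := hcon X hX
      have h4 : c.v X = 0 := v_zero c X
      funext i
      simp only [h4, Pi.zero_apply, Int.cast_zero]
    rw [h2]
    exact finrank_bot ℚ _
  omega

theorem s_PP1 (K : Type v) [Field K] (A : Type u) [Ring A] [Algebra K A] (hONE : S_ONE K A)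
    (hSIM : S_SIM K A) (hDIM : S_DIM K A) : S_PP1 K A := by
  intro hK hA hHR c f₀ Y hf₀ hY hr
  obtain ⟨δ, hδ⟩ := hDIM hA c
  obtain ⟨X₀, hX₀, hn₀⟩ := PP1_exists c f₀ hr
  have hpos : 0 < δ ⬝ᵥ c.v X₀ := by
    rw [hδ]
    exact_mod_cast (finrank_pos : 0 < finrank K X₀)
  rcases subsingleton_or_nontrivial Y with hs | hs
  · refine ⟨δ, ⟨c.v X₀, ⟨X₀, hX₀, rfl⟩, hpos.ne'⟩, fun S _ => ?_, fun X _ S _ => ?_⟩
    · have : Subsingleton (Y.sub S) := inferInstanceAs (Subsingleton S)
      rw [v_zero c (Y.sub S), dotProduct_zero]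
    · rw [hδ]
      exact Int.natCast_nonneg _
  · refine ⟨-δ, ⟨c.v X₀, ⟨X₀, hX₀, rfl⟩, ?_⟩, fun S _ => ?_, fun X hX S _ => ?_⟩
    · rw [neg_dotProduct, neg_ne_zero]
      exact hpos.ne'
    · rw [neg_dotProduct, hδ]
      exact neg_nonpos.2 (Int.natCast_nonneg _)
    · have hsub : Subsingleton X := by
        by_contra hX1
        rw [not_subsingleton_iff_nontrivial] at hX1
        obtain ⟨N, φ, hN, hφ⟩ := (hSIM f₀ Y hY hs).1
        obtain ⟨N', ψ, hN', hψ⟩ := (hSIM f₀ X hX.1 hX1).2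
        obtain ⟨e⟩ := hONE hK hA hHR c f₀ hf₀ hr.le N' N hN' hN
        have h1 := hX.2 (φ ∘ₗ e.toLinearMap ∘ₗ ψ)
        obtain ⟨n, hn⟩ := @exists_ne _ hN'.2.1 (0 : N')
        obtain ⟨x, rfl⟩ := hψ n
        have h2 := LinearMap.congr_fun h1 x
        rw [LinearMap.comp_apply, LinearMap.comp_apply, LinearMap.zero_apply] at h2
        have h3 := hφ (h2.trans (map_zero φ).symm)
        exact hn (e.injective (h3.trans (map_zero e).symm))
      have : Subsingleton (X.quot S) := inferInstanceAs (Subsingleton (X ⧸ S))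
      rw [v_zero c (X.quot S), dotProduct_zero]

end Pool.Agent.H51.MF
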